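import Pool.Agent.QNM.Def
import Pool.Agent.Qnr.Fin

/-! # From the number theory to `Small'` -/

set_option autoImplicit false

namespace Pool.Agent.QNM

open Finset Qnr

private theorem E1_size (C : ℕ) : ∃ p1 : ℕ, ∀ p : ℕ, p1 ≤ p → Nat.size p ^ C < p := by
  have h := tendsto_pow_const_div_const_pow_of_one_lt C (r := (2 : ℝ)) (by norm_num)
  obtain ⟨k0, hk0⟩ := Filter.eventually_atTop.1 (h.eventually_lt_const (u := 1 / 2) (by norm_num))
  refine ⟨2 ^ k0, fun p hp => ?_⟩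
  have h1 : k0 < Nat.size p := Nat.lt_size.2 hp
  have h2 := hk0 (Nat.size p) h1.le
  obtain ⟨k, hk⟩ := Nat.exists_eq_succ_of_ne_zero (show Nat.size p ≠ 0 by omega)
  have h3 : 2 ^ k ≤ p := Nat.lt_size.1 (by omega)
  have h4 : ((Nat.size p : ℝ)) ^ C < 2 ^ k := by
    rw [div_lt_iff₀ (by positivity)] at h2
    have h5 : (2 : ℝ) ^ Nat.size p = 2 * 2 ^ k := by
      rw [hk, Nat.succ_eq_add_one, pow_succ]
      ring
    rw [h5] at h2
    linarith
  have h5 : Nat.size p ^ C < 2 ^ k := by exact_mod_cast h4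
  exact h5.trans_le h3

private theorem E1_jac (p : ℕ) [hp : Fact p.Prime] {a : ℤ} (h : IsSquare (a : ZMod p)) :
    jacobiSym a p ≠ -1 := by
  rw [← jacobiSym.legendreSym.to_jacobiSym p a]
  intro h1
  exact (legendreSym.eq_neg_one_iff p).1 h1 h

private theorem E1_jac1 (p : ℕ) [hp : Fact p.Prime] {l : ℕ} (hl : l.Prime) (hlp : l < p)
    (h : IsSquare ((l : ℤ) : ZMod p)) : jacobiSym l p = 1 := by
  rw [← jacobiSym.legendreSym.to_jacobiSym p l]
  refine (legendreSym.eq_one_iff p ?_).2 h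
  rw [Int.cast_natCast, Ne, ZMod.natCast_eq_zero_iff]
  intro hd
  have := Nat.le_of_dvd hl.pos hd
  omega

theorem small' : Small' := by
  classical
  obtain ⟨p0, hno⟩ := nohyp
  obtain ⟨n0, hcount⟩ := counts
  obtain ⟨p1, hp1⟩ := E1_size 961
  refine ⟨961, max (max p0 p1) (2 ^ (n0 + 2)), fun p hp hpp A r hr hsq htest => ?_⟩
  have hpr : p.Prime := hp.out
  have e0 : p0 ≤ p := le_trans (le_trans (le_max_left _ _) (le_max_left _ _)) hpp
  have e1 : p1 ≤ p := le_trans (le_trans (le_max_right _ _) (le_max_left _ _)) hpp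
  have e2 : 2 ^ (n0 + 2) ≤ p := le_trans (le_max_right _ _) hpp
  have hn : n0 + 2 < Nat.size p := Nat.lt_size.2 e2
  have hsz := hp1 p e1
  obtain ⟨hc1, hc2⟩ := hcount (Nat.size p) (by omega)
  have hp2 : p ≠ 2 := by
    have h1 : 2 ^ 2 ≤ 2 ^ (n0 + 2) := Nat.pow_le_pow_right (by norm_num) (by omega)
    omega
  set n := Nat.size p with hnn
  obtain ⟨B, hB⟩ : ∃ B, B = n ^ 120 := ⟨_, rfl⟩
  rw [← hB] at hc1 hc2
  have hn2 : 2 ≤ n := by omega
  have hn0 : 0 < n := by omega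
  have hpow : ∀ a b : ℕ, a ≤ b → n ^ a ≤ n ^ b := fun a b h => Nat.pow_le_pow_right hn0 h
  have hB3 : B ^ 3 = n ^ 360 := by rw [hB, ← pow_mul]
  have hB8 : 2 * B ^ 8 ≤ n ^ 961 := by
    calc 2 * B ^ 8 = 2 * n ^ 960 := by rw [hB, ← pow_mul]
      _ ≤ n * n ^ 960 := Nat.mul_le_mul_right _ hn2
      _ = n ^ 961 := by ring
  -- all numbers up to `n ^ 961` are squares
  have hsqN : ∀ a : ℕ, a ≤ n ^ 961 → IsSquare ((a : ℤ) : ZMod p) := by
    intro a ha
    refine hsq a ?_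
    rw [Nat.abs_cast]
    exact_mod_cast ha
  have hjac : ∀ l : ℕ, l.Prime → l ≤ n ^ 961 → jacobiSym l p = 1 := fun l hl hle =>
    E1_jac1 p hl (lt_of_le_of_lt hle hsz) (hsqN l hle)
  -- `p = 1 mod 8`
  have hp8 : p % 8 = 1 := by
    have h1 : IsSquare (-1 : ZMod p) := by
      have := hsq (-1) (by
        rw [abs_neg, abs_one]
        exact_mod_cast Nat.one_le_pow _ _ hn0)
      simpa using this
    have h2 : IsSquare (2 : ZMod p) := by
      have := hsqN 2 (by
        calc 2 ≤ n := hn2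
          _ ≤ n ^ 961 := Nat.le_self_pow (by norm_num) n)
      simpa using this
    have h3 := (ZMod.exists_sq_eq_neg_one_iff (p := p)).1 h1
    have h4 := (ZMod.exists_sq_eq_two_iff (p := p) hp2).1 h2
    omega
  -- the majority class
  set S2 := (Ioc B (B ^ 3)).filter (fun l => l.Prime ∧ l % 8 = 1) with hS2
  have hmem2 : ∀ q ∈ S2, q.Prime ∧ q % 8 = 1 ∧ B < q ∧ q ≤ B ^ 3 := by
    intro q hq
    rw [hS2, Finset.mem_filter, Finset.mem_Ioc] at hq
    exact ⟨hq.2.1, hq.2.2, hq.1.1, hq.1.2⟩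
  obtain ⟨P2, hP2, hcard, hcls⟩ : ∃ P2 ⊆ S2, n ^ 358 ≤ P2.card ∧
      ∀ q ∈ P2, ∀ q' ∈ P2, (A q ↔ A q') := by
    have h1 := Finset.card_filter_add_card_filter_not (s := S2) (p := fun q => A q)
    have h2 : n ^ 359 = n * n ^ 358 := by ring
    have h3 : 2 * n ^ 358 ≤ n * n ^ 358 := Nat.mul_le_mul_right _ hn2
    have h4 : n ^ 359 ≤ S2.card := hc2
    rcases Nat.lt_or_ge (S2.filter (fun q => A q)).card (n ^ 358) with h5 | h5
    · refine ⟨S2.filter (fun q => ¬ A q), Finset.filter_subset _ _, by omega, ?_⟩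
      intro q hq q' hq'
      have a1 := (Finset.mem_filter.1 hq).2
      have a2 := (Finset.mem_filter.1 hq').2
      exact ⟨fun h => absurd h a1, fun h => absurd h a2⟩
    · refine ⟨S2.filter (fun q => A q), Finset.filter_subset _ _, h5, ?_⟩
      intro q hq q' hq'
      have a1 := (Finset.mem_filter.1 hq).2
      have a2 := (Finset.mem_filter.1 hq').2
      exact ⟨fun _ => a2, fun _ => a1⟩
  refine hno p e0 ((Icc 1 B).filter (fun l => l.Prime ∧ l % 8 = 1)) P2 ?_ ?_ hcard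
  · rw [← hnn, ← hB]
    constructor
    · exact hp8
    · intro l hl
      rw [Finset.mem_filter, Finset.mem_Icc] at hl
      refine ⟨hl.2.1, hl.2.2, hl.1.2, hjac l hl.2.1 ?_⟩
      calc l ≤ B := hl.1.2
        _ = n ^ 120 := hB
        _ ≤ n ^ 961 := hpow _ _ (by norm_num)
    · intro q hq
      obtain ⟨h1, h2, h3, h4⟩ := hmem2 q (hP2 hq)
      refine ⟨h1, h2, h3, h4, hjac q h1 ?_⟩
      calc q ≤ B ^ 3 := h4
        _ = n ^ 360 := hB3
        _ ≤ n ^ 961 := hpow _ _ (by norm_num)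
    · exact lt_of_le_of_lt hB8 hsz
    · intro q hq q' hq' hne
      obtain ⟨h1, _, _, h4⟩ := hmem2 q (hP2 hq)
      obtain ⟨h1', _, _, h4'⟩ := hmem2 q' (hP2 hq')
      have hqq : q * q' ≤ n ^ 961 := by
        calc q * q' ≤ B ^ 3 * B ^ 3 := Nat.mul_le_mul h4 h4'
          _ = n ^ 720 := by rw [hB3, ← pow_add]
          _ ≤ n ^ 961 := hpow _ _ (by norm_num)
      have hA := hcls q hq q' hq'
      have hr1 := hr q q' h1 h1' hne hqq hA
      have hcast : (((r (q * q')).val : ℤ) : ZMod p) = r (q * q') := by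
        rw [Int.cast_natCast, ZMod.natCast_zmod_val]
      refine ⟨((r (q * q')).val : ℤ), ?_, ?_⟩
      · rw [← ZMod.intCast_zmod_eq_zero_iff_dvd]
        push_cast
        rw [ZMod.natCast_zmod_val, hr1]
        push_cast
        ring
      · intro x w hx hw
        have hle : (2 * (B : ℤ) ^ 8) ≤ ((n ^ 961 : ℕ) : ℤ) := by exact_mod_cast hB8
        have h5 := htest q q' h1 h1' hne hqq hA x w (hx.trans hle) (hw.trans hle)
        apply E1_jac p
        rw [Int.cast_add, Int.cast_mul, hcast]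
        exact h5
  · exact hc1

end Pool.Agent.QNM
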