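import Pool.Agent.QNM.Spec
import Pool.Agent.PRL.Comp
import Pool.Agent.PRT.MainList
import Pool.Agent.PRT.ATM

/-! # Polynomial time -/

set_option autoImplicit false

namespace Pool.Agent.QNM

open Pool.Agent.PRT Pool.Agent.PRL Pool.NPC Pool.NPC.Enc Pool.NPC.Tr Polynomial

variable {α : Type} [Enc α]

theorem BT.zq {p N : α → ℕ} (hp : BT p) (hN : PT N) : BT (fun a => zq (p a) (N a)) := by
  have hp' : BT (fun y : α × ℕ => p y.1) := BT.comp (F := p) hp PT.fst
  have hN' : PT (fun y : α × ℕ => N y.1) := PT.comp (g := N) hN PT.fst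
  exact BT.iel (g := fun x : α × ℕ => PRL.gL (p x.1) (N x.1) x.2) hp
    (PRL.BT.gL hp' hN' (PT.snd' PT.id)) (PT.add hN (PRL.PT.BE hN)) (BT.const 2)

/-- the residue of maximal 2-order: for `p < p0` a table -/
def zt (C p0 : ℕ) (t : ℕ → ℕ) (p : ℕ) : ℕ := if p < p0 then t p else zq p (Nat.size p ^ C)

theorem BT.zt (C p0 : ℕ) (t : ℕ → ℕ) {p : α → ℕ} (hp : BT p) : BT (fun a => zt C p0 t (p a)) :=
  (BT.table t p0 hp (BT.zq hp (PT.powC hp.sizeU C))).congr fun _ => rfl

theorem BT.rt {p z a : α → ℕ} (hp : BT p) (hz : BT z) (ha : BT a) :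
    BT (fun x => rt (p x) (z x) (a x)) :=
  BT.sq hp hz (PT.ev hp (BT.const 2) hp.sizeU hz) ha

/-- the machine for the nonresidue -/
theorem zt_poly (C p0 : ℕ) (t : ℕ → ℕ) :
    Nonempty (Turing.TM2ComputableInPolyTime Nat.bits Nat.bits (zt C p0 t)) := by
  have hp : BT (fun l : List Bool => bval l) := BT.bval PT.id
  exact tm_of (BT.zt C p0 t hp).bits fun p => by rw [bval_bits]

/-! ### Pairs -/

/-- one step of the reader: the first component says that the next symbol is a digit, the second that
the first number is finished -/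
def stp (b : Bool) (s : Bool × (Bool × (List Bool × List Bool))) :
    Bool × (Bool × (List Bool × List Bool)) :=
  if s.1 = true then
    (false, (s.2.1, (if s.2.1 = true then (s.2.2.1, b :: s.2.2.2) else (b :: s.2.2.1, s.2.2.2))))
  else if b = true then (true, s.2) else (false, (true, s.2.2))

/-- the reader -/
def rd (l : List Bool) : Bool × (Bool × (List Bool × List Bool)) :=
  l.foldl (fun s b => stp b s) (false, (false, ([], [])))

theorem stp_size (b : Bool) (s : Bool × (Bool × (List Bool × List Bool))) :
    sz (stp b s) ≤ sz s + 1 := by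
  obtain ⟨c, e, l, m⟩ := s
  unfold stp
  cases c <;> cases e <;> cases b <;> simp [sz_prod, sz_list, sz_bool] <;> omega

theorem PT.stp {b : α → Bool} {s : α → Bool × (Bool × (List Bool × List Bool))} (hb : PT b)
    (hs : PT s) : PT (fun a => stp (b a) (s a)) := by
  have h1 : PT (fun a => (s a).1) := PT.fst' hs
  have h2 : PT (fun a => (s a).2) := PT.snd' hs
  have h21 : PT (fun a => (s a).2.1) := PT.fst' h2
  have h22 : PT (fun a => (s a).2.2) := PT.snd' h2
  have h3 : PT (fun a => (s a).2.2.1) := PT.fst' h22
  have h4 : PT (fun a => (s a).2.2.2) := PT.snd' h22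
  refine PT.cond h1 (PT.pair (PT.const false) (PT.pair h21 (PT.cond h21
    (PT.pair h3 (PT.cons hb h4)) (PT.pair (PT.cons hb h3) h4)))) (PT.cond hb
    (PT.pair (PT.const true) h2) (PT.pair (PT.const false) (PT.pair (PT.const true) h22)))

theorem PT.rd : PT rd := by
  have hg : PT (fun y : List Bool × (Bool × (Bool × (Bool × (List Bool × List Bool)))) =>
      QNM.stp y.2.1 y.2.2) := PT.stp (PT.fst' (PT.snd' PT.id)) (PT.snd' (PT.snd' PT.id))
  refine PT.foldl (l := fun l : List Bool => l)
    (i := fun _ : List Bool => (false, (false, (([] : List Bool), ([] : List Bool)))))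
    (g := fun y : List Bool × (Bool × (Bool × (Bool × (List Bool × List Bool)))) =>
      QNM.stp y.2.1 y.2.2) PT.id (PT.const _) hg (X + C 2) (fun a l1 hl => ?_)
  have h : sz (l1.foldl (fun s b => QNM.stp b s)
      (false, (false, (([] : List Bool), ([] : List Bool))))) ≤ l1.length + 2 := by
    induction l1 using List.reverseRecOn with
    | nil => simp [sz_prod, sz_list, sz_bool]
    | append_singleton m b ih =>
      rw [List.foldl_append, List.length_append]
      have h1 := ih ((List.prefix_append m [b]).trans hl)
      have h2 := stp_size b (m.foldl (fun s b => QNM.stp b s)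
        (false, (false, (([] : List Bool), ([] : List Bool)))))
      simp only [List.foldl_cons, List.foldl_nil, List.length_singleton]
      omega
  refine h.trans ?_
  have h5 := hl.length_le
  simp only [eval_add, eval_X, eval_C, sz_list]
  omega

private theorem rd_digits (m : List Bool) : ∀ (e : Bool) (u v : List Bool),
    (m.flatMap (fun b => [true, b])).foldl (fun s b => stp b s) (false, (e, (u, v))) =
      (false, (e, (if e = true then (u, m.reverse ++ v) else (m.reverse ++ u, v)))) := by
  induction m with
  | nil => intro e u v; cases e <;> rfl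
  | cons b m ih =>
    intro e u v
    simp only [List.flatMap_cons, List.foldl_append, List.foldl_cons, List.foldl_nil]
    have h : stp b (stp true (false, (e, (u, v)))) =
        (false, (e, (if e = true then (u, b :: v) else (b :: u, v)))) := by
      cases e <;> rfl
    rw [h]
    cases e
    · simp only [Bool.false_eq_true, if_false]
      rw [ih]
      simp
    · simp only [if_true]
      rw [ih]
      simp

theorem rd_enc (m n : ℕ) : rd (encList [m, n]) =
    (false, (true, ((Nat.bits m).reverse, (Nat.bits n).reverse))) := by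
  unfold rd encList enc1
  simp only [List.flatMap_cons, List.flatMap_nil, List.append_nil, List.foldl_append]
  rw [rd_digits]
  simp only [Bool.false_eq_true, if_false, List.foldl_cons, List.foldl_nil, List.append_nil]
  have h : stp false (false, (false, ((Nat.bits m).reverse, ([] : List Bool)))) =
      (false, (true, ((Nat.bits m).reverse, []))) := rfl
  rw [h, rd_digits]
  simp only [if_true, List.append_nil]
  rfl

/-- the machine for the square roots -/
theorem rt_poly (C p0 : ℕ) (t : ℕ → ℕ) :
    Nonempty (Turing.TM2ComputableInPolyTime (fun x : ℕ × ℕ => encList [x.1, x.2]) Nat.bits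
      (fun x : ℕ × ℕ => rt x.1 (zt C p0 t x.1) x.2)) := by
  have hp : BT (fun l : List Bool => bval (rd l).2.2.1.reverse) :=
    BT.bval (PT.reverse (PT.fst' (PT.snd' (PT.snd' PT.rd))))
  have ha : BT (fun l : List Bool => bval (rd l).2.2.2.reverse) :=
    BT.bval (PT.reverse (PT.snd' (PT.snd' (PT.snd' PT.rd))))
  refine tm_of (BT.rt hp (BT.zt C p0 t hp) ha).bits fun x => ?_
  simp only [rd_enc, List.reverse_reverse, bval_bits]

end Pool.Agent.QNM
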