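import Pool.Agent.PRL.Def

/-!
# Interface between the number theory and the machine (MP_18a8a6_lc, quadratic nonresidues)

`Small` is what the number theory has to deliver; everything else (the function, the Turing machine,
square roots modulo `p`) follows from `Small` in `Pool/Agent/QNM`.

`B = Nat.size p ^ C`.  `A` is any class of numbers (the machine uses: the 2-part of `q` has maximal
order), `r` any function which is a square root of `q q'` modulo `p` for different primes `q, q'`,
`q q' ≤ B`, both in `A` or both not in `A`.  The nonresidue may be `x + y r d` for ANY `d ≤ B` (also one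
for which `r d` is no square root), and `y = 0` is allowed (so `-1` and the small primes may be assumed
to be squares).
-/

set_option autoImplicit false

namespace Pool.Agent.QNM

/-- the number theoretic input -/
def Small : Prop :=
  ∃ C p0 : ℕ, ∀ (p : ℕ) [Fact p.Prime], p0 ≤ p → ∀ (A : ℕ → Prop) (r : ℕ → ZMod p),
    (∀ q q' : ℕ, q.Prime → q'.Prime → q ≠ q' → q * q' ≤ Nat.size p ^ C → (A q ↔ A q') →
      r (q * q') ^ 2 = ((q * q' : ℕ) : ZMod p)) →
    ∃ (d : ℕ) (x y : ℤ), d ≤ Nat.size p ^ C ∧ |x| ≤ (Nat.size p ^ C : ℕ) ∧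
      |y| ≤ (Nat.size p ^ C : ℕ) ∧ ¬ IsSquare ((x : ZMod p) + (y : ZMod p) * r d)

/-- the same, in the form in which the number theory is proved -/
def Small' : Prop :=
  ∃ C p0 : ℕ, ∀ (p : ℕ) [Fact p.Prime], p0 ≤ p → ∀ (A : ℕ → Prop) (r : ℕ → ZMod p),
    (∀ q q' : ℕ, q.Prime → q'.Prime → q ≠ q' → q * q' ≤ Nat.size p ^ C → (A q ↔ A q') →
      r (q * q') ^ 2 = ((q * q' : ℕ) : ZMod p)) →
    (∀ x : ℤ, |x| ≤ (Nat.size p ^ C : ℕ) → IsSquare (x : ZMod p)) →
    (∀ q q' : ℕ, q.Prime → q'.Prime → q ≠ q' → q * q' ≤ Nat.size p ^ C → (A q ↔ A q') →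
      ∀ x y : ℤ, |x| ≤ (Nat.size p ^ C : ℕ) → |y| ≤ (Nat.size p ^ C : ℕ) →
        IsSquare ((x : ZMod p) + (y : ZMod p) * r (q * q'))) →
    False

theorem small_of_small' (h : Small') : Small := by
  obtain ⟨C, p0, h⟩ := h
  refine ⟨C, p0, fun p hp hpp A r hr => ?_⟩
  by_contra hcon
  push Not at hcon
  have h0 : ∀ z : ℤ, z = 0 → |z| ≤ (Nat.size p ^ C : ℕ) := by
    rintro z rfl
    simp
  refine h p hpp A r hr (fun x hx => ?_) (fun q q' hq hq' hne hB hA x y hx hy => ?_)
  · have h1 := hcon 0 x 0 (Nat.zero_le _) hx (h0 0 rfl)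
    simpa using h1
  · exact hcon (q * q') x y hB hx hy

/-- The 2-part of the generator with the largest 2-order, among `-1, 2, ..., N` and the residues
`x + y r` with `|x|, |y|, d ≤ N`. -/
def zq (p N : ℕ) : ℕ := PRT.iel p (fun i => PRL.gL p N i) (N + PRL.BE N) 2

end Pool.Agent.QNM
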