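import Pool.Agent.QNM.Comp

/-! # Nonresidues and square roots in polynomial time, from `Small` -/

set_option autoImplicit false

namespace Pool.Agent.QNM

open Pool.Agent.PRT Pool.Agent.PRL

/-- a table of residues of maximal 2-order -/
theorem exists_zt : ∃ t : ℕ → ℕ, ∀ (p : ℕ) [Fact p.Prime], t p < p ∧
    ∃ ζ : (ZMod p)ˣ, ((t p : ℕ) : ZMod p) = ζ ∧ orderOf ζ = 2 ^ v2 p := by
  classical
  have h : ∀ p : ℕ, ∃ x : ℕ, ∀ hp : p.Prime, have := Fact.mk hp
      x < p ∧ ∃ ζ : (ZMod p)ˣ, ((x : ℕ) : ZMod p) = ζ ∧ orderOf ζ = 2 ^ v2 p := by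
    intro p
    by_cases hp : p.Prime
    · have := Fact.mk hp
      have h0 : p - 1 ≠ 0 := by have := hp.two_le; omega
      obtain ⟨g, hg⟩ := IsCyclic.exists_ofOrder_eq_natCard (α := (ZMod p)ˣ)
      have hc : Nat.card (ZMod p)ˣ = p - 1 := by
        rw [Nat.card_eq_fintype_card, ZMod.card_units]
      have h1 : p - 1 = PrimRoot.cofac (p - 1) 2 * 2 ^ v2 p := by
        unfold PrimRoot.cofac v2
        rw [mul_comm]
        exact (Nat.ordProj_mul_ordCompl_eq_self (p - 1) 2).symm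
      have hc0 : 0 < PrimRoot.cofac (p - 1) 2 := by
        rcases Nat.eq_zero_or_pos (PrimRoot.cofac (p - 1) 2) with h2 | h2
        · rw [h2, zero_mul] at h1
          exact absurd h1 h0
        · exact h2
      refine ⟨((g ^ PrimRoot.cofac (p - 1) 2 : (ZMod p)ˣ) : ZMod p).val, fun _ =>
        ⟨ZMod.val_lt _, g ^ PrimRoot.cofac (p - 1) 2, ?_, ?_⟩⟩
      · rw [ZMod.natCast_zmod_val]
      · rw [orderOf_pow, hg, hc]
        have h2 : Nat.gcd (p - 1) (PrimRoot.cofac (p - 1) 2) = PrimRoot.cofac (p - 1) 2 := by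
          apply Nat.gcd_eq_right
          exact ⟨2 ^ v2 p, h1⟩
        rw [h2]
        exact Nat.div_eq_of_eq_mul_right hc0 h1
    · exact ⟨0, fun h => absurd h hp⟩
  choose t ht using h
  exact ⟨t, fun p hp => ht p hp.out⟩

/-- `Nat.size p ^ C < p` for large `p` -/
theorem exists_size_pow_lt (C : ℕ) : ∃ p1 : ℕ, ∀ p : ℕ, p1 ≤ p → Nat.size p ^ C < p := by
  have h := tendsto_pow_const_div_const_pow_of_one_lt C (r := (2 : ℝ)) (by norm_num)
  obtain ⟨k0, hk0⟩ := Filter.eventually_atTop.1 (h.eventually_lt_const (u := 1 / 2) (by norm_num))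
  refine ⟨2 ^ k0, fun p hp => ?_⟩
  have h1 : k0 < Nat.size p := Nat.lt_size.2 hp
  have h2 := hk0 (Nat.size p) h1.le
  obtain ⟨k, hk⟩ := Nat.exists_eq_succ_of_ne_zero (show Nat.size p ≠ 0 by omega)
  have h3 : 2 ^ k ≤ p := Nat.lt_size.1 (by omega)
  have h4 : ((Nat.size p : ℝ)) ^ C < 2 ^ k := by
    rw [div_lt_iff₀ (by positivity)] at h2
    have h5 : (2 : ℝ) ^ Nat.size p = 2 * 2 ^ k := by
      rw [hk, Nat.succ_eq_add_one, pow_succ]
      ring
    rw [h5] at h2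
    linarith
  have h5 : Nat.size p ^ C < 2 ^ k := by exact_mod_cast h4
  omega

/-- polynomial time nonresidues and square roots, from `Small` -/
theorem machine (hS : Small) : ∃ (f : ℕ → ℕ) (g : ℕ × ℕ → ℕ),
    Nonempty (Turing.TM2ComputableInPolyTime Nat.bits Nat.bits f) ∧
    Nonempty (Turing.TM2ComputableInPolyTime (fun x : ℕ × ℕ => PRT.encList [x.1, x.2]) Nat.bits g) ∧
    ∀ p : ℕ, p.Prime → p ≠ 2 →
      (f p < p ∧ orderOf ((f p : ℕ) : ZMod p) = 2 ^ (p - 1).factorization 2 ∧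
        ¬ IsSquare ((f p : ℕ) : ZMod p)) ∧
      ∀ a : ℕ, IsSquare ((a : ℕ) : ZMod p) →
        g (p, a) < p ∧ ((g (p, a) : ℕ) : ZMod p) ^ 2 = (a : ZMod p) := by
  obtain ⟨C, p0, hS⟩ := hS
  obtain ⟨t, ht⟩ := exists_zt
  -- `p1` is so large that `Nat.size p ^ C < p` for `p ≥ p1`
  obtain ⟨p1, hp1⟩ := exists_size_pow_lt C
  refine ⟨zt C (max p0 p1) t, fun x => rt x.1 (zt C (max p0 p1) t x.1) x.2, zt_poly C _ t,
    rt_poly C _ t, fun p hp hp2 => ?_⟩
  have := Fact.mk hp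
  have key : zt C (max p0 p1) t p < p ∧
      ∃ ζ : (ZMod p)ˣ, ((zt C (max p0 p1) t p : ℕ) : ZMod p) = ζ ∧ orderOf ζ = 2 ^ v2 p := by
    unfold zt
    split_ifs with h
    · exact ht p
    · have hp0 : p0 ≤ p := by have := le_max_left p0 p1; omega
      have hpp1 : p1 ≤ p := by have := le_max_right p0 p1; omega
      set N := Nat.size p ^ C with hN
      have hNp : N < p := hp1 p hpp1
      refine ⟨?_, ?_⟩
      · unfold zq iel
        exact pmod_lt hp.pos
      · obtain ⟨d, x, y, hd, hx, hy, hns⟩ := hS p hp0 (AL p N) (fun d => ((rl p N d : ℕ) : ZMod p))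
          (fun q q' hq hq' _ hqN hA => rl_sq p hNp q q' hq hq' hqN hA)
        exact zq_of_elt p hp2 hd hx hy hns
  obtain ⟨h1, ζ, h2, h3⟩ := key
  refine ⟨⟨h1, ?_, ?_⟩, fun a ha => rt_spec p hp2 h2 h3 ha⟩
  · rw [h2, orderOf_units, h3]
    rfl
  · rw [h2]
    exact not_square_of_order p hp2 h3

end Pool.Agent.QNM
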