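import Pool.Agent.QNM.Def
import Pool.Agent.PRL.Elt

/-! # The residue of maximal 2-order and square roots -/

set_option autoImplicit false

namespace Pool.Agent.QNM

open Pool.Agent.PRT Pool.Agent.PRL Finset

/-- the exponent of 2 in `p - 1` -/
def v2 (p : ℕ) : ℕ := (p - 1).factorization 2

theorem v2_spec {p : ℕ} (hp : p.Prime) (hp2 : p ≠ 2) :
    1 ≤ v2 p ∧ p - 1 = PrimRoot.cofac (p - 1) 2 * 2 ^ v2 p ∧
      p / 2 = PrimRoot.cofac (p - 1) 2 * 2 ^ (v2 p - 1) := by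
  have h0 : p - 1 ≠ 0 := by have := hp.two_le; omega
  have hodd := hp.eq_two_or_odd.resolve_left hp2
  have h1 : 1 ≤ v2 p := by
    have h2 : 2 ∣ p - 1 := by omega
    exact (Nat.prime_two.dvd_iff_one_le_factorization h0).1 h2
  have h3 : p - 1 = PrimRoot.cofac (p - 1) 2 * 2 ^ v2 p := by
    unfold PrimRoot.cofac v2
    rw [mul_comm]
    exact (Nat.ordProj_mul_ordCompl_eq_self (p - 1) 2).symm
  refine ⟨h1, h3, ?_⟩
  have h4 : 2 ^ v2 p = 2 ^ (v2 p - 1) * 2 := by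
    rw [← pow_succ]
    congr 1
    omega
  have h5 : p - 1 = PrimRoot.cofac (p - 1) 2 * 2 ^ (v2 p - 1) * 2 := by
    rw [mul_assoc, ← h4]
    exact h3
  omega

/-- the 2-part of a unit has order at most `2 ^ v2 p` -/
theorem o2_dvd (p : ℕ) [hpf : Fact p.Prime] (x : (ZMod p)ˣ) : o2 p x ∣ 2 ^ v2 p := by
  have hc : Nat.card (ZMod p)ˣ = p - 1 := by
    rw [Nat.card_eq_fintype_card, ZMod.card_units]
  have h1 := PrimRoot.pow_cofac_pow x 2
  rw [hc] at h1
  exact orderOf_dvd_of_pow_eq_one h1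

theorem isSquare_val {p : ℕ} [Fact p.Prime] (u : (ZMod p)ˣ) :
    IsSquare (u : ZMod p) ↔ ∃ w : (ZMod p)ˣ, w ^ 2 = u := by
  constructor
  · rintro ⟨r, hr⟩
    have hr0 : r ≠ 0 := by
      rintro rfl
      rw [mul_zero] at hr
      exact u.ne_zero hr
    refine ⟨Units.mk0 r hr0, Units.ext ?_⟩
    rw [Units.val_pow_eq_pow_val, Units.val_mk0, hr, pow_two]
  · rintro ⟨w, rfl⟩
    exact ⟨w, by rw [Units.val_pow_eq_pow_val, pow_two]⟩

/-- a nonsquare has maximal 2-order -/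
theorem o2_of_not_square (p : ℕ) [hpf : Fact p.Prime] (hp2 : p ≠ 2) (u : (ZMod p)ˣ)
    (hu : ¬ IsSquare (u : ZMod p)) : o2 p u = 2 ^ v2 p := by
  obtain ⟨h1, _, h3⟩ := v2_spec hpf.out hp2
  obtain ⟨e, he, heq⟩ := (Nat.dvd_prime_pow Nat.prime_two).1 (o2_dvd p u)
  rcases Nat.lt_or_ge e (v2 p) with h | h
  · exfalso
    apply hu
    rw [isSquare_val]
    apply (ZMod.euler_criterion_units p u).2
    rw [h3, pow_mul]
    have h4 : o2 p u ∣ 2 ^ (v2 p - 1) := by
      rw [heq]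
      exact pow_dvd_pow 2 (by omega)
    exact orderOf_dvd_iff_pow_eq_one.1 h4
  · rw [heq]
    congr 1
    omega

/-- a unit of order `2 ^ v2 p` is not a square -/
theorem not_square_of_order (p : ℕ) [hpf : Fact p.Prime] (hp2 : p ≠ 2) {ζ : (ZMod p)ˣ}
    (h : orderOf ζ = 2 ^ v2 p) : ¬ IsSquare (ζ : ZMod p) := by
  obtain ⟨h1, _, h3⟩ := v2_spec hpf.out hp2
  rw [isSquare_val]
  intro hs
  have h2 := (ZMod.euler_criterion_units p ζ).1 hs
  rw [h3] at h2
  have h4 := orderOf_dvd_of_pow_eq_one h2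
  have h0 : p - 1 ≠ 0 := by have := hpf.out.two_le; omega
  have hodd : ¬ 2 ∣ PrimRoot.cofac (p - 1) 2 := PrimRoot.not_dvd_cofac Nat.prime_two h0
  rw [h] at h4
  have h5 : 2 ^ v2 p = 2 ^ (v2 p - 1) * 2 := by
    rw [← pow_succ]
    congr 1
    omega
  rw [h5, mul_comm (PrimRoot.cofac (p - 1) 2)] at h4
  exact hodd (Nat.dvd_of_mul_dvd_mul_left (by positivity) h4)

/-- if one of the generators is not a square then `zq` has maximal 2-order -/
theorem zq_spec (p : ℕ) [hpf : Fact p.Prime] (hp2 : p ≠ 2) {N i : ℕ}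
    (hi : i ∈ Icc 1 (N + BE N)) (hns : ¬ IsSquare ((gL p N i : ℕ) : ZMod p)) :
    ∃ ζ : (ZMod p)ˣ, ((zq p N : ℕ) : ZMod p) = ζ ∧ orderOf ζ = 2 ^ v2 p := by
  have hpp : p.Prime := hpf.out
  have hi' := Finset.mem_Icc.1 hi
  have hB : 1 ≤ N + BE N := by omega
  have h0 : p - 1 ≠ 0 := by have := hpp.two_le; omega
  have h2mem : 2 ∈ PrimRoot.smallPrimes 2 (p - 1) := by
    rw [PrimRoot.mem_smallPrimes]
    refine ⟨⟨Nat.prime_two, ?_, h0⟩, le_rfl⟩
    have := hpp.eq_two_or_odd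
    omega
  have hcast : ∀ j ∈ Icc 1 (N + BE N), (((fun j => gL p N j) j : ℕ) : ZMod p) =
      ((fun j => toU p (gL p N j)) j : ZMod p) := fun j _ => gL_cast p N j
  refine ⟨toU p (gL p N (io p (fun j => gL p N j) (N + BE N) 2)) ^ PrimRoot.cofac (p - 1) 2,
    ?_, ?_⟩
  · exact iel_cast p hB hcast Nat.prime_two
  · have hadm := io_adm p (g := fun j => gL p N j) hB hcast 2
    have h1 := (hadm 2 h2mem).2 i hi
    have h2 : o2 p (toU p (gL p N i)) = 2 ^ v2 p := by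
      apply o2_of_not_square p hp2
      rw [← gL_cast]
      exact hns
    have h3 := o2_dvd p (toU p (gL p N (io p (fun j => gL p N j) (N + BE N) 2)))
    have h4 := Nat.le_of_dvd (by positivity) h3
    refine le_antisymm h4 ?_
    rw [← h2]
    exact h1

/-- the nonsquare `x + y r d` is one of the generators -/
theorem zq_of_elt (p : ℕ) [hpf : Fact p.Prime] (hp2 : p ≠ 2) {N d : ℕ} {x y : ℤ} (hd : d ≤ N)
    (hx : |x| ≤ (N : ℕ)) (hy : |y| ≤ (N : ℕ))
    (hns : ¬ IsSquare ((x : ZMod p) + (y : ZMod p) * ((rl p N d : ℕ) : ZMod p))) :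
    ∃ ζ : (ZMod p)ˣ, ((zq p N : ℕ) : ZMod p) = ζ ∧ orderOf ζ = 2 ^ v2 p := by
  have hx' := abs_le.1 hx
  have hy' := abs_le.1 hy
  obtain ⟨i, hi, h1, h2, h3⟩ := digits N d (x + N).toNat (y + N).toNat hd (by omega) (by omega)
  have hcx : (((x + N).toNat : ℕ) : ZMod p) - (N : ZMod p) = (x : ZMod p) := by
    have h5 : (((x + N).toNat : ℕ) : ℤ) = x + N := Int.toNat_of_nonneg (by omega)
    have h6 := congrArg (fun t : ℤ => (t : ZMod p)) h5
    simp only [Int.cast_natCast, Int.cast_add] at h6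
    rw [h6]
    ring
  have hcy : (((y + N).toNat : ℕ) : ZMod p) - (N : ZMod p) = (y : ZMod p) := by
    have h5 : (((y + N).toNat : ℕ) : ℤ) = y + N := Int.toNat_of_nonneg (by omega)
    have h6 := congrArg (fun t : ℤ => (t : ZMod p)) h5
    simp only [Int.cast_natCast, Int.cast_add] at h6
    rw [h6]
    ring
  have hel : ((elI p N i : ℕ) : ZMod p) =
      (x : ZMod p) + (y : ZMod p) * ((rl p N d : ℕ) : ZMod p) := by
    unfold elI
    rw [h1, h2, h3, el_cast, hcx, hcy]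
  have hne : elI p N i ≠ 0 := by
    intro h0
    apply hns
    rw [← hel, h0, Nat.cast_zero]
    exact ⟨0, by ring⟩
  have hg : gE p N (i + 1) = elI p N i := by
    unfold gE
    rw [Nat.add_sub_cancel, if_neg hne]
  have hgL : gL p N (N + (i + 1)) = elI p N i := by
    unfold gL
    rw [if_neg (by omega), Nat.add_sub_cancel_left, hg]
  refine zq_spec p hp2 (i := N + (i + 1)) (Finset.mem_Icc.2 ⟨by omega, by omega⟩) ?_
  rw [hgL, hel]
  exact hns

/-- the square root of `a`, computed with a residue `z` of maximal 2-order -/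
def rt (p z a : ℕ) : ℕ := sq p z (ev p 2 (Nat.size p) z) a

theorem mmod_lt {x y p : ℕ} (hp : 0 < p) : mmod x y p < p := by
  unfold mmod
  rw [if_neg hp.ne']
  exact Nat.mod_lt _ hp

theorem pmod_lt {x y p : ℕ} (hp : 0 < p) : pmod x y p < p := by
  unfold pmod
  rw [if_neg hp.ne']
  exact Nat.mod_lt _ hp

theorem sq_lt {p : ℕ} (z f a : ℕ) (hp : 0 < p) : sq p z f a < p := by
  unfold PRT.sq
  generalize Nat.size p = k
  induction k with
  | zero => exact pmod_lt hp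
  | succ k ih =>
    show sqs p z f a _ < p
    unfold sqs
    split_ifs
    · exact ih
    · exact mmod_lt hp

theorem sqs_zero (p : ℕ) [hpf : Fact p.Prime] (z f a : ℕ) {r : ℕ} (hr : (r : ZMod p) = 0) :
    ((sqs p z f a r : ℕ) : ZMod p) = 0 := by
  unfold sqs
  split_ifs
  · exact hr
  · rw [mmod_cast _ _ hpf.out.ne_zero, hr, zero_mul]

theorem sq_zero (p : ℕ) [hpf : Fact p.Prime] (z f : ℕ) {a : ℕ} (ha : (a : ZMod p) = 0) :
    ((sq p z f a : ℕ) : ZMod p) = 0 := by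
  have hp : p.Prime := hpf.out
  unfold PRT.sq
  generalize Nat.size p = k
  induction k with
  | zero =>
    show ((pmod a ((cf p 2 + 1) / 2) p : ℕ) : ZMod p) = 0
    rw [pmod_cast _ _ hp.ne_zero, ha]
    apply zero_pow
    have h0 : p - 1 ≠ 0 := by have := hp.two_le; omega
    have h1 : cf p 2 ≠ 0 := by
      rw [cf_eq hp.two_le Nat.prime_two]
      intro h
      exact PrimRoot.not_dvd_cofac Nat.prime_two h0 (by rw [h]; exact dvd_zero _)
    omega
  | succ k ih =>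
    exact sqs_zero p z f a ih

/-- square roots of all squares -/
theorem rt_spec (p : ℕ) [hpf : Fact p.Prime] (hp2 : p ≠ 2) {z a : ℕ} {ζ : (ZMod p)ˣ}
    (hz : (z : ZMod p) = ζ) (hζ : orderOf ζ = 2 ^ v2 p) (ha : IsSquare (a : ZMod p)) :
    rt p z a < p ∧ ((rt p z a : ℕ) : ZMod p) ^ 2 = (a : ZMod p) := by
  have hp : p.Prime := hpf.out
  refine ⟨sq_lt _ _ _ hp.pos, ?_⟩
  unfold rt
  by_cases h0 : (a : ZMod p) = 0
  · rw [sq_zero p _ _ h0, h0]
    ring
  obtain ⟨h1, h2, h3⟩ := v2_spec hp hp2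
  have hp0 : p - 1 ≠ 0 := by have := hp.two_le; omega
  obtain ⟨δ, hδ⟩ : ∃ δ : (ZMod p)ˣ, (a : ZMod p) = δ := ⟨Units.mk0 _ h0, rfl⟩
  rw [hδ] at ha
  have hle : v2 p ≤ Nat.size p := by
    by_contra h
    push Not at h
    have h5 : 2 ^ Nat.size p ≤ 2 ^ v2 p := Nat.pow_le_pow_right (by norm_num) h.le
    have h6 := Nat.ordProj_le 2 hp0
    have h7 := Nat.lt_size_self p
    unfold v2 at h5
    omega
  have hev : 2 ^ ev p 2 (Nat.size p) z = orderOf ζ := by
    refine ev_eq p Nat.prime_two ζ hz ?_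
    rw [← orderOf_dvd_iff_pow_eq_one, hζ]
    exact pow_dvd_pow 2 hle
  refine sq_spec p hp2 hz hδ hev.symm ?_
  have hord : orderOf (ζ ^ 2) = 2 ^ (v2 p - 1) := by
    have h5 : 2 ^ v2 p = 2 ^ (v2 p - 1) * 2 := by
      rw [← pow_succ]
      congr 1
      omega
    rw [orderOf_pow, hζ, Nat.gcd_eq_right (dvd_pow_self 2 (by omega)), h5,
      Nat.mul_div_cancel _ (by norm_num)]
  refine mem_of_pow hord ?_
  rw [← pow_mul, ← h3]
  exact (ZMod.euler_criterion_units p δ).1 ((isSquare_val δ).1 ha)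

end Pool.Agent.QNM
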