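import Pool.Agent.QNM.Comp

/-!
# Vectors of residues modulo `p` as natural numbers

The vector with the coordinates `v_0, ..., v_(m-1)` is the number with these digits in base `W`; it
stands for the element `∑ v_k x ^ k` of `F_p[x] / (x ^ m - 1)`.
-/

set_option autoImplicit false

namespace Pool.Agent.QNM

open Pool.Agent.PRT Finset

/-- the coordinate number `k` -/
def gt (W V k : ℕ) : ℕ := V / W ^ k % W

/-- the vector with the coordinates `F k % W`, `k < m` -/
def mk (W m : ℕ) (F : ℕ → ℕ) : ℕ :=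
  Nat.rec (motive := fun _ => ℕ) 0 (fun k s => s + F k % W * W ^ k) m

/-- the sum of the `G i`, `i < m`, modulo `p` -/
def sm (p m : ℕ) (G : ℕ → ℕ) : ℕ :=
  Nat.rec (motive := fun _ => ℕ) 0 (fun i s => mmod 1 (s + G i) p) m

/-- product -/
def mulV (p W m V V' : ℕ) : ℕ :=
  mk W m (fun k => sm p m (fun i => gt W V i * gt W V' ((k + m - i) % m)))

/-- `V - b` -/
def subV (p W m V b : ℕ) : ℕ :=
  mk W m (fun k => mmod 1 (gt W V k + (if k = 0 then (p - 1) * b else 0)) p)

/-- `x ^ d + s` -/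
def xV (p W m d s : ℕ) : ℕ :=
  mk W m (fun k => mmod 1 ((if k = 0 then s else 0) + (if k = d % m then 1 else 0)) p)

/-- `V ^ k` -/
def pwV (p W m V k : ℕ) : ℕ :=
  Nat.rec (motive := fun _ => ℕ) (mk W m (fun k => if k = 0 then 1 else 0))
    (fun _ S => mulV p W m S V) k

/-- `V ^ (2 ^ j)` -/
def sqV (p W m V j : ℕ) : ℕ :=
  Nat.rec (motive := fun _ => ℕ) V (fun _ S => mulV p W m S S) j

theorem mk_succ (W m : ℕ) (F : ℕ → ℕ) : mk W (m + 1) F = mk W m F + F m % W * W ^ m := rfl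

theorem mk_lt {W : ℕ} (hW : 0 < W) (m : ℕ) (F : ℕ → ℕ) : mk W m F < W ^ m := by
  induction m with
  | zero => simp [mk]
  | succ m ih =>
    rw [mk_succ, pow_succ]
    have h1 : F m % W < W := Nat.mod_lt _ hW
    have h2 : F m % W * W ^ m ≤ (W - 1) * W ^ m := Nat.mul_le_mul_right _ (by omega)
    have h3 : (W - 1) * W ^ m + W ^ m = W ^ m * W := by
      obtain ⟨w, rfl⟩ : ∃ w, W = w + 1 := ⟨W - 1, by omega⟩
      rw [Nat.add_sub_cancel]
      ring
    omega

theorem gt_mk {W : ℕ} (hW : 0 < W) {m : ℕ} (F : ℕ → ℕ) {k : ℕ} (hk : k < m) :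
    gt W (mk W m F) k = F k % W := by
  induction m with
  | zero => omega
  | succ m ih =>
    rw [mk_succ]
    rcases Nat.lt_or_ge k m with h | h
    · rw [← ih h]
      unfold gt
      obtain ⟨d, rfl⟩ := Nat.exists_eq_add_of_lt h
      have h1 : F (k + d + 1) % W * W ^ (k + d + 1) =
          W ^ k * (W * (F (k + d + 1) % W * W ^ d)) := by ring
      rw [h1, Nat.add_mul_div_left _ _ (pow_pos hW k), Nat.add_mul_mod_self_left]
    · have hkm : k = m := by omega
      subst hkm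
      unfold gt
      rw [Nat.add_mul_div_right _ _ (pow_pos hW k), Nat.div_eq_of_lt (mk_lt hW k F), zero_add,
        Nat.mod_mod]

theorem mk_eq_zero {W : ℕ} {m : ℕ} {F : ℕ → ℕ} (h : ∀ k < m, F k % W = 0) : mk W m F = 0 := by
  induction m with
  | zero => rfl
  | succ m ih =>
    rw [mk_succ, ih (fun k hk => h k (by omega)), h m (by omega)]
    simp

theorem sm_cast {p : ℕ} (hp : p ≠ 0) (m : ℕ) (G : ℕ → ℕ) :
    ((sm p m G : ℕ) : ZMod p) = ∑ i ∈ range m, (G i : ZMod p) := by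
  induction m with
  | zero => simp [sm]
  | succ m ih =>
    show ((mmod 1 (sm p m G + G m) p : ℕ) : ZMod p) = _
    rw [mmod_cast _ _ hp, Finset.sum_range_succ, ← ih]
    push_cast
    ring

theorem sm_lt {p : ℕ} (hp : 0 < p) (m : ℕ) (G : ℕ → ℕ) : sm p m G < p := by
  cases m with
  | zero => exact hp
  | succ m => exact mmod_lt hp

/-- the value of the vector at `x` -/
noncomputable def ev' (p W m : ℕ) (x : ZMod p) (V : ℕ) : ZMod p :=
  ∑ k ∈ range m, ((gt W V k : ℕ) : ZMod p) * x ^ k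

/-- a vector with all coordinates smaller than `p` -/
def Rd (p W m V : ℕ) : Prop := ∃ F : ℕ → ℕ, V = mk W m F ∧ ∀ k, F k < p

theorem ev'_mk {p W m : ℕ} (hp : 0 < p) (hW : p ≤ W) (x : ZMod p) {F : ℕ → ℕ}
    (hF : ∀ k, F k < p) : ev' p W m x (mk W m F) = ∑ k ∈ range m, (F k : ZMod p) * x ^ k := by
  unfold ev'
  refine Finset.sum_congr rfl fun k hk => ?_
  rw [gt_mk (by omega) F (Finset.mem_range.1 hk), Nat.mod_eq_of_lt (lt_of_lt_of_le (hF k) hW)]

theorem rd_mul {p W m V V' : ℕ} (hp : 0 < p) : Rd p W m (mulV p W m V V') :=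
  ⟨_, rfl, fun _ => sm_lt hp _ _⟩

theorem rd_sub {p W m V b : ℕ} (hp : 0 < p) : Rd p W m (subV p W m V b) :=
  ⟨_, rfl, fun _ => mmod_lt hp⟩

theorem rd_x {p W m d s : ℕ} (hp : 0 < p) : Rd p W m (xV p W m d s) :=
  ⟨_, rfl, fun _ => mmod_lt hp⟩

theorem rd_one {p W m : ℕ} (hp : 1 < p) : Rd p W m (mk W m (fun k => if k = 0 then 1 else 0)) :=
  ⟨_, rfl, fun k => by split_ifs <;> omega⟩

/-- the product of values -/
theorem ev'_mul {p W m : ℕ} (hp : 0 < p) (hW : p ≤ W) {x : ZMod p} (hx : x ^ m = 1) (V V' : ℕ) :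
    ev' p W m x (mulV p W m V V') = ev' p W m x V * ev' p W m x V' := by
  unfold mulV
  rw [ev'_mk hp hW x (fun _ => sm_lt hp _ _)]
  have h1 : ∀ k ∈ range m, ((sm p m (fun i => gt W V i * gt W V' ((k + m - i) % m)) : ℕ) : ZMod p) *
      x ^ k = ∑ i ∈ range m, ((gt W V i : ℕ) : ZMod p) *
        (((gt W V' ((k + m - i) % m) : ℕ) : ZMod p) * x ^ k) := by
    intro k _
    rw [sm_cast hp.ne', Finset.sum_mul]
    refine Finset.sum_congr rfl fun i _ => ?_
    push_cast
    ring
  rw [Finset.sum_congr rfl h1, Finset.sum_comm]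
  unfold ev'
  rw [Finset.sum_mul]
  refine Finset.sum_congr rfl fun i hi => ?_
  have him : i < m := Finset.mem_range.1 hi
  suffices hsuf : ∑ k ∈ range m, ((gt W V' ((k + m - i) % m) : ℕ) : ZMod p) * x ^ k =
      ∑ j ∈ range m, x ^ i * (((gt W V' j : ℕ) : ZMod p) * x ^ j) by
    rw [← Finset.mul_sum, hsuf, ← Finset.mul_sum, mul_assoc]
  refine Finset.sum_nbij' (fun k => (k + m - i) % m) (fun j => (j + i) % m) ?_ ?_ ?_ ?_ ?_
  · intro k hk
    exact Finset.mem_range.2 (Nat.mod_lt _ (by omega))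
  · intro j hj
    exact Finset.mem_range.2 (Nat.mod_lt _ (by omega))
  · intro k hk
    have hkm : k < m := Finset.mem_range.1 hk
    rw [Nat.mod_add_mod]
    have h2 : k + m - i + i = k + m := by omega
    rw [h2, Nat.add_mod_right, Nat.mod_eq_of_lt hkm]
  · intro j hj
    have hjm : j < m := Finset.mem_range.1 hj
    have h2 : (j + i) % m + m - i = (j + i) % m + (m - i) := by omega
    rw [h2, Nat.mod_add_mod]
    have h3 : j + i + (m - i) = j + m := by omega
    rw [h3, Nat.add_mod_right, Nat.mod_eq_of_lt hjm]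
  · intro k hk
    have hkm : k < m := Finset.mem_range.1 hk
    have h2 : x ^ k = x ^ i * x ^ ((k + m - i) % m) := by
      rw [← pow_add]
      have h3 : ∀ t : ℕ, x ^ t = x ^ (t % m) := by
        intro t
        conv_lhs => rw [← Nat.div_add_mod t m, pow_add, pow_mul, hx, one_pow, one_mul]
      rw [h3 k, h3 (i + (k + m - i) % m)]
      congr 1
      rw [Nat.add_mod_mod]
      have h4 : i + (k + m - i) = k + m := by omega
      rw [h4, Nat.add_mod_right]
    rw [h2]
    ring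

theorem ev'_sub {p W m : ℕ} [Fact p.Prime] (hm : 0 < m) (hW : p ≤ W) (x : ZMod p) (V b : ℕ) :
    ev' p W m x (subV p W m V b) = ev' p W m x V - b := by
  have hp : p.Prime := Fact.out
  have hp1 : ((p - 1 : ℕ) : ZMod p) = -1 := by
    rw [Nat.cast_sub hp.one_lt.le]
    simp
  unfold subV
  rw [ev'_mk hp.pos hW x (fun _ => mmod_lt hp.pos)]
  have h1 : ∀ k ∈ range m, ((mmod 1 (gt W V k + (if k = 0 then (p - 1) * b else 0)) p : ℕ) :
      ZMod p) * x ^ k = ((gt W V k : ℕ) : ZMod p) * x ^ k - (if k = 0 then (b : ZMod p) else 0) := by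
    intro k _
    rw [mmod_cast _ _ hp.ne_zero]
    split_ifs with h
    · subst h
      push_cast
      rw [hp1]
      ring
    · push_cast
      ring
  rw [Finset.sum_congr rfl h1, Finset.sum_sub_distrib]
  unfold ev'
  congr 1
  rw [Finset.sum_ite_eq' (range m) 0 (fun _ => (b : ZMod p))]
  simp [hm]

theorem ev'_x {p W m : ℕ} [Fact p.Prime] (hm : 0 < m) (hW : p ≤ W) {x : ZMod p} (hx : x ^ m = 1)
    (d s : ℕ) : ev' p W m x (xV p W m d s) = x ^ d + s := by
  have hp : p.Prime := Fact.out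
  unfold xV
  rw [ev'_mk hp.pos hW x (fun _ => mmod_lt hp.pos)]
  have h1 : ∀ k ∈ range m, ((mmod 1 ((if k = 0 then s else 0) + (if k = d % m then 1 else 0)) p :
      ℕ) : ZMod p) * x ^ k = (if k = 0 then (s : ZMod p) else 0) +
        (if k = d % m then x ^ (d % m) else 0) := by
    intro k _
    rw [mmod_cast _ _ hp.ne_zero]
    by_cases h : k = 0
    · subst h
      by_cases h' : 0 = d % m
      · simp [← h']
      · simp [h']
    · by_cases h' : k = d % m
      · have h2 : d % m ≠ 0 := fun h2 => h (by rw [h', h2])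
        rw [h']
        simp [h2]
      · simp [h, h']
  rw [Finset.sum_congr rfl h1, Finset.sum_add_distrib,
    Finset.sum_ite_eq' (range m) 0 (fun _ => (s : ZMod p)),
    Finset.sum_ite_eq' (range m) (d % m) (fun _ => x ^ (d % m))]
  rw [if_pos (Finset.mem_range.2 hm), if_pos (Finset.mem_range.2 (Nat.mod_lt _ hm)), add_comm]
  congr 1
  conv_rhs => rw [← Nat.div_add_mod d m, pow_add, pow_mul, hx, one_pow, one_mul]

theorem ev'_one {p W m : ℕ} (hp : 1 < p) (hm : 0 < m) (hW : p ≤ W) (x : ZMod p) :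
    ev' p W m x (mk W m (fun k => if k = 0 then 1 else 0)) = 1 := by
  rw [ev'_mk (by omega) hW x (fun k => by split_ifs <;> omega)]
  have h1 : ∀ k ∈ range m, (((if k = 0 then 1 else 0 : ℕ) : ℕ) : ZMod p) * x ^ k =
      if k = 0 then 1 else 0 := by
    intro k _
    split_ifs with h
    · subst h; simp
    · simp
  rw [Finset.sum_congr rfl h1, Finset.sum_ite_eq' (range m) 0 (fun _ => (1 : ZMod p)),
    if_pos (Finset.mem_range.2 hm)]

theorem ev'_pw {p W m : ℕ} (hp : 1 < p) (hm : 0 < m) (hW : p ≤ W) {x : ZMod p} (hx : x ^ m = 1)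
    (V k : ℕ) : ev' p W m x (pwV p W m V k) = ev' p W m x V ^ k := by
  induction k with
  | zero => rw [pow_zero]; exact ev'_one hp hm hW x
  | succ k ih =>
    show ev' p W m x (mulV p W m (pwV p W m V k) V) = _
    rw [ev'_mul (by omega) hW hx, ih, pow_succ]

theorem ev'_sq {p W m : ℕ} (hp : 1 < p) (hW : p ≤ W) {x : ZMod p} (hx : x ^ m = 1)
    (V j : ℕ) : ev' p W m x (sqV p W m V j) = ev' p W m x V ^ (2 ^ j) := by
  induction j with
  | zero => rw [pow_zero, pow_one]; rfl
  | succ j ih =>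
    show ev' p W m x (mulV p W m (sqV p W m V j) (sqV p W m V j)) = _
    rw [ev'_mul (by omega) hW hx, ih, ← pow_two, ← pow_mul, pow_succ]

end Pool.Agent.QNM
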